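import Pool.Agent.helper73.BRZ.Spec

/-! Row BAS of project BRZ (MP_a2a22c_al): a parametrisation of the lattice `Y g`. -/

set_option autoImplicit false

namespace Pool.Agent.BRZ

open Matrix Module Pool.Agent.PR Pool.Agent.SHL TensorProduct MeasureTheory
open scoped ENNReal ContDiff RealInnerProductSpace FourierTransform SchwartzMap

section

variable {d : ℕ} {D : Type} [DivisionRing D] [Algebra ℚ D]

/-- A basis of the lattice `Y`. -/
theorem BAS_basis (S : SO d D) (Y : S.LY) :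
    ∃ (c : Basis (Fin (d * d)) ℚ D) (bY : Basis (Fin (d * d)) ℤ (AddSubgroup.toIntSubmodule Y.1)),
      (∀ i, c i = (bY i : D)) ∧ Y.1 = AddSubgroup.closure (Set.range c) ∧
      (S.ix Y : ℚ) = |c.det S.b| := by
  have : CharZero D := algebraRat.charZero D
  obtain ⟨hOY, -, hrel⟩ := Y.2
  set M : ℕ := (S.ord.relIndex Y.1).factorial with hM
  have hM0 : M ≠ 0 := Nat.factorial_ne_zero _
  have hMY : ∀ y ∈ Y.1, M • y ∈ S.ord := by
    intro y hy
    refine (AddSubgroup.mem_inf.1 (AddSubgroup.nsmul_mem_of_relIndex_ne_zero_of_dvd hrel hy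
      fun m hm hle => ?_)).1
    exact Nat.dvd_factorial hm hle
  set MO : Submodule ℤ D := Submodule.span ℤ (Set.range S.b) with hMO
  have hMOmem : ∀ x, x ∈ MO ↔ x ∈ S.ord := by
    intro x
    rw [SO.ord, ← Submodule.span_int_eq_addSubgroupClosure]
    rfl
  set MY : Submodule ℤ D := AddSubgroup.toIntSubmodule Y.1 with hMYd
  have hMYmem : ∀ x, x ∈ MY ↔ x ∈ Y.1 := fun x => Iff.rfl
  have hMOfg : MO.FG := Submodule.fg_span (Set.finite_range _)
  have hnO : IsNoetherian ℤ MO := isNoetherian_of_fg_of_noetherian MO hMOfg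
  let f : MY →ₗ[ℤ] MO :=
    { toFun := fun y => ⟨M • (y : D), (hMOmem _).2 (hMY _ y.2)⟩
      map_add' := fun x y => Subtype.ext (smul_add M (x : D) (y : D))
      map_smul' := fun n x => Subtype.ext (smul_comm M n (x : D)) }
  have hf : Function.Injective f := by
    intro x y hxy
    have h1 : M • (x : D) = M • (y : D) := congrArg Subtype.val hxy
    apply Subtype.ext
    rw [← Nat.cast_smul_eq_nsmul ℚ, ← Nat.cast_smul_eq_nsmul ℚ M (y : D)] at h1
    exact smul_right_injective D (Nat.cast_ne_zero.2 hM0 : (M : ℚ) ≠ 0) h1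
  have hnY : IsNoetherian ℤ MY := isNoetherian_of_injective f hf
  have hfinY : Module.Finite ℤ MY := inferInstance
  have hfreeY : Module.Free ℤ MY := Module.free_of_finite_type_torsion_free'
  let b0 := Module.finBasis ℤ MY
  have hli : LinearIndependent ℚ (fun i => (b0 i : D)) := by
    rw [← LinearIndependent.iff_fractionRing ℤ ℚ]
    exact b0.linearIndependent.map' MY.subtype (Submodule.ker_subtype _)
  have hsp1 : ∀ v ∈ MY, v ∈ Submodule.span ℚ (Set.range fun i => (b0 i : D)) := by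
    intro v hv
    have h2 := b0.sum_repr ⟨v, hv⟩
    have h3 := congrArg Subtype.val h2
    rw [Submodule.coe_sum] at h3
    rw [← show _ = v from h3]
    refine Submodule.sum_mem _ fun i _ => ?_
    rw [Submodule.coe_smul, ← Int.cast_smul_eq_zsmul ℚ]
    exact Submodule.smul_mem _ _ (Submodule.subset_span ⟨i, rfl⟩)
  have hbO : ∀ i, S.b i ∈ S.ord := fun i => AddSubgroup.subset_closure ⟨i, rfl⟩
  have hspan : ⊤ ≤ Submodule.span ℚ (Set.range fun i => (b0 i : D)) := by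
    intro v _
    rw [← S.b.sum_repr v]
    exact Submodule.sum_mem _ fun i _ => Submodule.smul_mem _ _ (hsp1 _ (hOY (hbO i)))
  let B0 := Module.Basis.mk hli hspan
  have hcard : Module.finrank ℤ MY = d * d := by
    have h1 := Module.finrank_eq_card_basis B0
    have h2 := Module.finrank_eq_card_basis S.b
    rw [h1, Fintype.card_fin, Fintype.card_fin] at h2
    exact h2
  let bY := b0.reindex (finCongr hcard)
  let c := B0.reindex (finCongr hcard)
  have hcb : ∀ i, c i = (bY i : D) := by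
    intro i
    simp [c, bY, B0]
  have hYc : Y.1 = AddSubgroup.closure (Set.range c) := by
    apply le_antisymm
    · intro y hy
      have h2 := bY.sum_repr ⟨y, hy⟩
      have h3 := congrArg Subtype.val h2
      rw [Submodule.coe_sum] at h3
      rw [← show _ = y from h3]
      refine AddSubgroup.sum_mem _ fun i _ => ?_
      rw [Submodule.coe_smul, ← hcb]
      exact AddSubgroup.zsmul_mem _ (AddSubgroup.subset_closure (Set.mem_range_self i)) _
    · rw [AddSubgroup.closure_le]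
      rintro _ ⟨i, rfl⟩
      rw [hcb]
      exact (bY i).2
  exact ⟨c, bY, hcb, hYc, AddSubgroup.relIndex_eq_abs_det S.ord Y.1 hOY S.b c rfl hYc⟩

/-- The coordinates in a basis. -/
noncomputable def BAS_ev {N : ℕ} (c : Basis (Fin N) ℚ D) : (ℝ ⊗[ℚ] D) ≃ₗ[ℝ] EE N :=
  (c.baseChange ℝ).equivFun.trans (WithLp.linearEquiv 2 ℝ (Fin N → ℝ)).symm

theorem BAS_ev_symm {N : ℕ} (c : Basis (Fin N) ℚ D) (v : EE N) :
    (BAS_ev c).symm v = ∑ i, v i • ((1 : ℝ) ⊗ₜ[ℚ] c i) := by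
  show (c.baseChange ℝ).equivFun.symm v.ofLp = _
  rw [Basis.equivFun_symm_apply]
  exact Finset.sum_congr rfl fun i _ => by rw [Basis.baseChange_apply]

theorem BAS_ev_zv {N : ℕ} (c : Basis (Fin N) ℚ D) (n : Fin N → ℤ) :
    (BAS_ev c).symm (zv n) = (1 : ℝ) ⊗ₜ[ℚ] (∑ i, n i • c i) := by
  rw [BAS_ev_symm, TensorProduct.tmul_sum]
  refine Finset.sum_congr rfl fun i _ => ?_
  show (n i : ℝ) • ((1 : ℝ) ⊗ₜ[ℚ] c i) = _
  rw [Int.cast_smul_eq_zsmul, TensorProduct.tmul_smul]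

/-- The determinant of the change of coordinates. -/
theorem BAS_det {N : ℕ} (b c : Basis (Fin N) ℚ D) :
    LinearMap.det (((BAS_ev c).symm.trans (BAS_ev b) : EE N ≃ₗ[ℝ] EE N) : EE N →ₗ[ℝ] EE N) =
      ((b.det c : ℚ) : ℝ) := by
  set φ : (ℝ ⊗[ℚ] D) →ₗ[ℝ] (ℝ ⊗[ℚ] D) :=
    (((BAS_ev b).trans (BAS_ev c).symm : (ℝ ⊗[ℚ] D) ≃ₗ[ℝ] (ℝ ⊗[ℚ] D)) :
      (ℝ ⊗[ℚ] D) →ₗ[ℝ] (ℝ ⊗[ℚ] D)) with hφ
  have h1 : (((BAS_ev c).symm.trans (BAS_ev b) : EE N ≃ₗ[ℝ] EE N) : EE N →ₗ[ℝ] EE N) =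
      (BAS_ev b : (ℝ ⊗[ℚ] D) →ₗ[ℝ] EE N) ∘ₗ φ ∘ₗ
        ((BAS_ev b).symm : EE N →ₗ[ℝ] (ℝ ⊗[ℚ] D)) := by
    refine LinearMap.ext fun v => ?_
    simp [hφ]
  rw [h1, LinearMap.det_conj]
  have h2 := (b.baseChange ℝ).det_comp φ (b.baseChange ℝ)
  rw [Basis.det_self, mul_one] at h2
  rw [← h2]
  have h3 : (φ ∘ (b.baseChange ℝ)) = fun i => (1 : ℝ) ⊗ₜ[ℚ] c i := by
    funext i
    show (BAS_ev c).symm (BAS_ev b ((b.baseChange ℝ) i)) = _
    rw [LinearEquiv.symm_apply_eq]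
    show WithLp.toLp 2 ((b.baseChange ℝ).equivFun ((b.baseChange ℝ) i)) =
      WithLp.toLp 2 ((c.baseChange ℝ).equivFun ((1 : ℝ) ⊗ₜ[ℚ] c i))
    rw [← Basis.baseChange_apply, Basis.equivFun_apply, Basis.equivFun_apply, Basis.repr_self,
      Basis.repr_self]
  rw [h3, Basis.det_apply, Basis.det_apply]
  have h5 : (b.baseChange ℝ).toMatrix (fun i => (1 : ℝ) ⊗ₜ[ℚ] c i) =
      (b.toMatrix c).map (algebraMap ℚ ℝ) := by
    ext i j
    rw [Basis.toMatrix_apply, Matrix.map_apply, Basis.toMatrix_apply,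
      Basis.baseChange_repr_tmul, Algebra.smul_def, mul_one]
  rw [h5]
  exact ((algebraMap ℚ ℝ).map_det (b.toMatrix c)).symm

end

theorem BAS (_hRAL : RAL_stmt) : BAS_stmt := by
  intro d D _ _ _ hd S Y g hg
  obtain ⟨c, bY, hcb, -, hix⟩ := BAS_basis S Y
  have hev : S.ev = BAS_ev S.b := rfl
  set R : (ℝ ⊗[ℚ] D) →ₗ[ℝ] (ℝ ⊗[ℚ] D) := LinearMap.mulRight ℝ (S.ev.symm g) with hR
  set ψ : EE (d * d) ≃ₗ[ℝ] EE (d * d) := (BAS_ev c).symm.trans (BAS_ev S.b) with hψ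
  set L : EE (d * d) →ₗ[ℝ] EE (d * d) :=
    ((BAS_ev S.b : (ℝ ⊗[ℚ] D) →ₗ[ℝ] EE (d * d)) ∘ₗ R ∘ₗ
      ((BAS_ev S.b).symm : EE (d * d) →ₗ[ℝ] (ℝ ⊗[ℚ] D))) ∘ₗ (ψ : EE (d * d) →ₗ[ℝ] EE (d * d))
    with hL
  have hdet : LinearMap.det L = LinearMap.det R * ((S.b.det c : ℚ) : ℝ) := by
    rw [hL, LinearMap.det_comp, LinearMap.det_conj, hψ, BAS_det]
  have hcc : S.b.det c * c.det S.b = 1 := by
    rw [Basis.det_apply, Basis.det_apply, ← Matrix.det_mul, Basis.toMatrix_mul_toMatrix_flip,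
      Matrix.det_one]
  have habs : |LinearMap.det L| = S.nu g Y := by
    have h7 : |S.b.det c| = (S.ix Y : ℚ)⁻¹ := by
      rw [hix]
      exact eq_inv_of_mul_eq_one_left (by rw [← abs_mul, hcc, abs_one])
    rw [hdet, abs_mul, ← Rat.cast_abs, h7, SO.nu, div_eq_mul_inv]
    rw [Rat.cast_inv, Rat.cast_natCast]
    rfl
  have hixne : (S.ix Y : ℝ) ≠ 0 := by
    have := Y.2.2.2
    exact_mod_cast this
  have hL0 : LinearMap.det L ≠ 0 := by
    intro h
    have h9 : S.dl g / (S.ix Y : ℝ) = 0 := by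
      rw [← SO.nu, ← habs, h, abs_zero]
    exact div_ne_zero hg hixne h9
  have hLz : ∀ n : Fin (d * d) → ℤ,
      L (zv n) = S.ev (((1 : ℝ) ⊗ₜ[ℚ] (∑ i, n i • c i)) * S.ev.symm g) := by
    intro n
    have h10 : (BAS_ev S.b).symm (BAS_ev S.b ((BAS_ev c).symm (zv n))) = (BAS_ev c).symm (zv n) :=
      LinearEquiv.symm_apply_apply _ _
    have h11 : L (zv n) =
        BAS_ev S.b (R ((BAS_ev S.b).symm (BAS_ev S.b ((BAS_ev c).symm (zv n))))) := by
      simp only [hL, hψ, LinearMap.comp_apply, LinearEquiv.coe_coe, LinearEquiv.trans_apply]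
    have h12 : R ((BAS_ev c).symm (zv n)) = ((1 : ℝ) ⊗ₜ[ℚ] (∑ i, n i • c i)) * S.ev.symm g := by
      rw [BAS_ev_zv, hR, LinearMap.mulRight_apply]
    exact h11.trans (congrArg (BAS_ev S.b) ((congrArg R h10).trans h12))
  let e : (Fin (d * d) → ℤ) ≃ Y.1 :=
    { toFun := fun n => ⟨(bY.equivFun.symm n : AddSubgroup.toIntSubmodule Y.1).1,
        (bY.equivFun.symm n : AddSubgroup.toIntSubmodule Y.1).2⟩
      invFun := fun y => bY.equivFun ⟨y.1, y.2⟩
      left_inv := fun n => bY.equivFun.apply_symm_apply n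
      right_inv := fun y => by
        apply Subtype.ext
        show ((bY.equivFun.symm (bY.equivFun ⟨y.1, y.2⟩) : AddSubgroup.toIntSubmodule Y.1) : D) = y.1
        rw [bY.equivFun.symm_apply_apply] }
  refine ⟨LinearMap.equivOfDetNeZero L hL0, e, ?_, ?_, ?_⟩
  · have h8 : ((LinearMap.equivOfDetNeZero L hL0 : EE (d * d) ≃ₗ[ℝ] EE (d * d)) :
        EE (d * d) →ₗ[ℝ] EE (d * d)) = L := by
      refine LinearMap.ext fun v => ?_
      rfl
    rw [h8, habs]
  · apply Subtype.ext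
    show ((bY.equivFun.symm 0 : AddSubgroup.toIntSubmodule Y.1) : D) = 0
    rw [map_zero]
    rfl
  · intro n
    show S.ev (((1 : ℝ) ⊗ₜ[ℚ] ((bY.equivFun.symm n : AddSubgroup.toIntSubmodule Y.1) : D)) *
      S.ev.symm g) = L (zv n)
    rw [hLz, Basis.equivFun_symm_apply, Submodule.coe_sum]
    congr 3
    exact Finset.sum_congr rfl fun i _ => by rw [Submodule.coe_smul, hcb]

end Pool.Agent.BRZ
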