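import Pool.Agent.helper73.BRZ.Spec

/-! Row DUA of project BRZ (MP_a2a22c_al): the dual lattice of `Y g` has no short vectors. -/

set_option autoImplicit false

namespace Pool.Agent.BRZ

open Matrix Module Pool.Agent.PR Pool.Agent.SHL TensorProduct MeasureTheory
open scoped ENNReal ContDiff RealInnerProductSpace FourierTransform SchwartzMap

section

variable {d : ℕ} {D : Type} [DivisionRing D] [Algebra ℚ D]

theorem DUA_tra [FiniteDimensional ℚ D] (x : D) :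
    LinearMap.trace ℝ (ℝ ⊗[ℚ] D) (LinearMap.mulLeft ℝ ((1 : ℝ) ⊗ₜ[ℚ] x)) = ((tra x : ℚ) : ℝ) := by
  have h1 : LinearMap.mulLeft ℝ ((1 : ℝ) ⊗ₜ[ℚ] x) = (LinearMap.mulLeft ℚ x).baseChange ℝ := by
    apply TensorProduct.AlgebraTensorModule.ext
    intro a y
    rw [LinearMap.mulLeft_apply, LinearMap.baseChange_tmul, Algebra.TensorProduct.tmul_mul_tmul,
      one_mul, LinearMap.mulLeft_apply]
  rw [h1, LinearMap.trace_baseChange]
  rfl

/-- the normalised trace on the real algebra -/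
noncomputable def DUA_t (d : ℕ) (D : Type) [DivisionRing D] [Algebra ℚ D] :
    (ℝ ⊗[ℚ] D) →ₗ[ℝ] ℝ :=
  ((d : ℝ)⁻¹) • ((LinearMap.trace ℝ (ℝ ⊗[ℚ] D)).comp (LinearMap.mul ℝ (ℝ ⊗[ℚ] D)))

theorem DUA_t_apply (x : ℝ ⊗[ℚ] D) :
    DUA_t d D x = (d : ℝ)⁻¹ * LinearMap.trace ℝ (ℝ ⊗[ℚ] D) (LinearMap.mulLeft ℝ x) := rfl

theorem DUA_t_b [FiniteDimensional ℚ D] (hd : 0 < d) (S : SO d D) (i j : Fin (d * d)) :
    DUA_t d D (((1 : ℝ) ⊗ₜ[ℚ] S.b i) * ((1 : ℝ) ⊗ₜ[ℚ] S.b j)) = (S.T i j : ℝ) := by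
  rw [Algebra.TensorProduct.tmul_mul_tmul, one_mul, DUA_t_apply, DUA_tra, S.tr]
  have : (d : ℝ) ≠ 0 := by
    have : d ≠ 0 := by omega
    exact_mod_cast this
  push_cast
  field_simp

theorem DUA_expand (S : SO d D) (x : ℝ ⊗[ℚ] D) :
    x = ∑ i, (S.ev x) i • ((1 : ℝ) ⊗ₜ[ℚ] S.b i) := by
  have h1 := (S.b.baseChange ℝ).sum_repr x
  conv_lhs => rw [← h1]
  refine Finset.sum_congr rfl fun i _ => ?_
  rw [Basis.baseChange_apply]
  rfl

theorem DUA_t_left [FiniteDimensional ℚ D] (hd : 0 < d) (S : SO d D) (i : Fin (d * d))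
    (v : ℝ ⊗[ℚ] D) :
    DUA_t d D (((1 : ℝ) ⊗ₜ[ℚ] S.b i) * v) = ∑ j, (S.T i j : ℝ) * (S.ev v) j := by
  conv_lhs => rw [DUA_expand S v]
  rw [Finset.mul_sum, map_sum]
  refine Finset.sum_congr rfl fun j _ => ?_
  rw [mul_smul_comm, map_smul, DUA_t_b hd, smul_eq_mul, mul_comm]

theorem DUA_t_mul [FiniteDimensional ℚ D] (hd : 0 < d) (S : SO d D) (x v : ℝ ⊗[ℚ] D) :
    DUA_t d D (x * v) = ∑ i, (S.ev x) i * ∑ j, (S.T i j : ℝ) * (S.ev v) j := by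
  conv_lhs => rw [DUA_expand S x]
  rw [Finset.sum_mul, map_sum]
  refine Finset.sum_congr rfl fun i _ => ?_
  rw [smul_mul_assoc, map_smul, DUA_t_left hd, smul_eq_mul]

/-- an integral inverse of the Gram matrix -/
theorem DUA_inv (S : SO d D) : ∃ T' : Matrix (Fin (d * d)) (Fin (d * d)) ℤ,
    S.T * T' = 1 ∧ T' * S.T = 1 := by
  have hu : IsUnit S.T.det := IsUnit.of_mul_eq_one (S.T.det) (by rw [← sq]; exact S.det)
  exact ⟨S.T⁻¹, Matrix.mul_nonsing_inv _ hu, Matrix.nonsing_inv_mul _ hu⟩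

theorem DUA_mulinv {N : ℕ} (T T' : Matrix (Fin N) (Fin N) ℤ) (h : T' * T = 1) (x : Fin N → ℝ)
    (i : Fin N) : ∑ j, (T' i j : ℝ) * ∑ k, (T j k : ℝ) * x k = x i := by
  have h1 : ∀ k, ∑ j, (T' i j : ℝ) * (T j k : ℝ) = if i = k then 1 else 0 := by
    intro k
    have h2 := congrFun (congrFun h i) k
    rw [Matrix.mul_apply, Matrix.one_apply] at h2
    have h3 : ((∑ j, T' i j * T j k : ℤ) : ℝ) = ((if i = k then 1 else 0 : ℤ) : ℝ) := by rw [h2]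
    push_cast at h3
    exact h3
  calc ∑ j, (T' i j : ℝ) * ∑ k, (T j k : ℝ) * x k
      = ∑ j, ∑ k, (T' i j : ℝ) * (T j k : ℝ) * x k := by
        refine Finset.sum_congr rfl fun j _ => ?_
        rw [Finset.mul_sum]
        exact Finset.sum_congr rfl fun k _ => by ring
    _ = ∑ k, (∑ j, (T' i j : ℝ) * (T j k : ℝ)) * x k := by
        rw [Finset.sum_comm]
        exact Finset.sum_congr rfl fun k _ => by rw [Finset.sum_mul]
    _ = x i := by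
        rw [Finset.sum_eq_single i]
        · rw [h1, if_pos rfl, one_mul]
        · intro k _ hk
          rw [h1, if_neg (Ne.symm hk), zero_mul]
        · intro hi
          exact absurd (Finset.mem_univ i) hi

/-- integrality -/
theorem DUA_integral [FiniteDimensional ℚ D] (hd : 0 < d) (S : SO d D) (v : ℝ ⊗[ℚ] D)
    (h : ∀ i, ∃ k : ℤ, DUA_t d D (((1 : ℝ) ⊗ₜ[ℚ] S.b i) * v) = (k : ℝ)) :
    ∃ n : Fin (d * d) → ℤ, v = (1 : ℝ) ⊗ₜ[ℚ] (∑ i, n i • S.b i) := by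
  obtain ⟨T', -, hT'⟩ := DUA_inv S
  choose k hk using h
  refine ⟨fun i => ∑ j, T' i j * k j, ?_⟩
  have h1 : ∀ i, (S.ev v) i = ((∑ j, T' i j * k j : ℤ) : ℝ) := by
    intro i
    rw [← DUA_mulinv S.T T' hT' (S.ev v) i]
    push_cast
    refine Finset.sum_congr rfl fun j _ => ?_
    rw [← hk j, DUA_t_left hd]
  conv_lhs => rw [DUA_expand S v]
  rw [TensorProduct.tmul_sum]
  refine Finset.sum_congr rfl fun i _ => ?_
  rw [h1, Int.cast_smul_eq_zsmul, TensorProduct.tmul_smul]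

theorem DUA_ord (S : SO d D) (w : D) (n : Fin (d * d) → ℤ)
    (h : (1 : ℝ) ⊗ₜ[ℚ] w = (1 : ℝ) ⊗ₜ[ℚ] (∑ i, n i • S.b i)) : w ∈ S.ord := by
  have h1 : w = ∑ i, n i • S.b i := by
    apply S.b.repr.injective
    ext i
    have h2 := congrArg (fun x => (S.b.baseChange ℝ).repr x i) h
    simp only [Basis.baseChange_repr_tmul] at h2
    rw [Algebra.smul_def, Algebra.smul_def, mul_one, mul_one] at h2
    exact (algebraMap ℚ ℝ).injective h2
  rw [h1]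
  exact AddSubgroup.sum_mem _ fun i _ =>
    AddSubgroup.zsmul_mem _ (AddSubgroup.subset_closure (Set.mem_range_self i)) _

end

theorem DUA (hRAL : RAL_stmt) (hIDX : IDX_stmt) : DUA_stmt := by
  intro d D _ _ _ hd S
  obtain ⟨r1, r2, -, ⟨C, hC, r4⟩, r5, -, -, -, -, -, r11⟩ := hRAL d D hd S
  obtain ⟨T', hT, hT'⟩ := DUA_inv S
  -- the linear map `T'`
  let Λ : EE (d * d) →ₗ[ℝ] EE (d * d) :=
    Matrix.toEuclideanLin (T'.map (fun k : ℤ => (k : ℝ)))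
  have hΛ : ∀ (z : EE (d * d)) i, (Λ z) i = ∑ j, (T' i j : ℝ) * z j := by
    intro z i
    rfl
  obtain ⟨K, hK⟩ : ∃ K : ℝ, ∀ z, ‖Λ z‖ ≤ K * ‖z‖ :=
    ⟨‖LinearMap.toContinuousLinearMap Λ‖,
      fun z => (LinearMap.toContinuousLinearMap Λ).le_opNorm z⟩
  set K1 : ℝ := max K 1 with hK1
  have hK1pos : 0 < K1 := lt_of_lt_of_le one_pos (le_max_right _ _)
  have hK1b : ∀ z, ‖Λ z‖ ≤ K1 * ‖z‖ := fun z =>
    (hK z).trans (mul_le_mul_of_nonneg_right (le_max_left _ _) (norm_nonneg z))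
  have hden : 0 < C * K1 ^ (d * d) := mul_pos hC (pow_pos hK1pos _)
  refine ⟨(C * K1 ^ (d * d))⁻¹, inv_pos.2 hden, ?_⟩
  intro Y g z' hg hz' hint
  set G : ℝ ⊗[ℚ] D := S.ev.symm g with hG
  set u : ℝ ⊗[ℚ] D := S.ev.symm (Λ z') with hu
  have hTu : ∀ i, ∑ j, (S.T i j : ℝ) * (S.ev u) j = z' i := by
    intro i
    rw [hu, LinearEquiv.apply_symm_apply]
    simp only [hΛ]
    exact DUA_mulinv T' S.T hT z' i
  have hpair : ∀ x : ℝ ⊗[ℚ] D, DUA_t d D (x * u) = ⟪S.ev x, z'⟫ := by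
    intro x
    rw [DUA_t_mul hd S, PiLp.inner_apply]
    refine Finset.sum_congr rfl fun i _ => ?_
    rw [hTu]
    simp [mul_comm]
  set v : ℝ ⊗[ℚ] D := G * u with hv
  have hYt : ∀ z ∈ Y.1, ∃ k : ℤ, DUA_t d D (((1 : ℝ) ⊗ₜ[ℚ] z) * v) = (k : ℝ) := by
    intro z hz
    obtain ⟨k, hk⟩ := hint z hz
    refine ⟨k, ?_⟩
    rw [hv, ← mul_assoc, hpair]
    exact hk
  obtain ⟨hOY, hmulY, hrel⟩ := Y.2
  have hbO : ∀ i, S.b i ∈ S.ord := fun i => AddSubgroup.subset_closure (Set.mem_range_self i)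
  obtain ⟨n, hn⟩ := DUA_integral hd S v fun i => hYt _ (hOY (hbO i))
  set y' : D := ∑ i, n i • S.b i with hy'
  have hy'0 : y' ≠ 0 := by
    intro h
    rw [h, TensorProduct.tmul_zero] at hn
    obtain ⟨hinv, -, hh⟩ := r5 g hg
    have h1 : u = 0 := by
      calc u = (hinv * G) * u := by rw [hG, hh, one_mul]
        _ = hinv * v := by rw [mul_assoc]
        _ = 0 := by rw [hn, mul_zero]
    apply hz'
    ext i
    rw [← hTu i, h1, map_zero]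
    simp
  have hYy : ∀ y ∈ Y.1, y * y' ∈ S.ord := by
    intro y hy
    have h2 : ∀ i, ∃ k : ℤ,
        DUA_t d D (((1 : ℝ) ⊗ₜ[ℚ] S.b i) * ((1 : ℝ) ⊗ₜ[ℚ] (y * y'))) = (k : ℝ) := by
      intro i
      obtain ⟨k, hk⟩ := hYt _ (hmulY _ (hbO i) y hy)
      refine ⟨k, ?_⟩
      rw [← hk, hn, Algebra.TensorProduct.tmul_mul_tmul, Algebra.TensorProduct.tmul_mul_tmul,
        mul_assoc]
    obtain ⟨n2, hn2⟩ := DUA_integral hd S _ h2
    exact DUA_ord S _ n2 hn2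
  have h3 : (S.ix Y : ℝ) ≤ |(nor y' : ℝ)| := (hIDX d D hd S).2.1 Y y' hy'0 hYy
  have h4 : |(nor y' : ℝ)| = S.dl g * S.dl (Λ z') := by
    have h5 := r2 y' (S.ev 1)
    rw [r11, mul_one] at h5
    have h6 : S.act y' (S.ev 1) = S.ev v := by
      rw [SO.act, LinearEquiv.symm_apply_apply, mul_one, ← hn]
    rw [← h5, h6, hv, r1, hG, hu, LinearEquiv.apply_symm_apply, LinearEquiv.apply_symm_apply]
  have hdlpos : 0 < S.dl g := lt_of_le_of_ne (abs_nonneg _) (Ne.symm hg)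
  have h7 : S.dl (Λ z') ≤ C * (K1 * ‖z'‖) ^ (d * d) :=
    (r4 _).trans (mul_le_mul_of_nonneg_left
      (pow_le_pow_left₀ (norm_nonneg _) (hK1b z') _) hC.le)
  have h8 : (S.ix Y : ℝ) ≤ S.dl g * (C * K1 ^ (d * d) * ‖z'‖ ^ (d * d)) := by
    calc (S.ix Y : ℝ) ≤ S.dl g * S.dl (Λ z') := by rw [← h4]; exact h3
      _ ≤ S.dl g * (C * (K1 * ‖z'‖) ^ (d * d)) := mul_le_mul_of_nonneg_left h7 hdlpos.le
      _ = S.dl g * (C * K1 ^ (d * d) * ‖z'‖ ^ (d * d)) := by rw [mul_pow]; ring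
  have hixpos : (0 : ℝ) < S.ix Y := by
    have h9 : 0 < S.ix Y := Nat.pos_of_ne_zero hrel
    exact_mod_cast h9
  rw [SO.nu, inv_le_iff_one_le_mul₀ hden]
  rw [div_mul_eq_mul_div, div_mul_eq_mul_div, one_le_div hixpos]
  calc (S.ix Y : ℝ) ≤ S.dl g * (C * K1 ^ (d * d) * ‖z'‖ ^ (d * d)) := h8
    _ = S.dl g * ‖z'‖ ^ (d * d) * (C * K1 ^ (d * d)) := by ring

end Pool.Agent.BRZ
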